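import Mathlib

set_option autoImplicit false

namespace Pool.Agent.ChromA2

open Finset

section Count

variable {V : Type*} [Fintype V] [DecidableEq V] (G : SimpleGraph V) [DecidableRel G.Adj]

/-- independent sets -/
def Indep (I : Finset V) : Prop := ∀ u ∈ I, ∀ v ∈ I, ¬ G.Adj u v

instance (I : Finset V) : Decidable (Indep G I) := by unfold Indep; infer_instance

/-- proper colourings of `G[S]` with colours `1..n`; the value `0` marks the vertices off `S` -/
def cols (S : Finset V) (n : ℕ) : Finset (V → ℕ) :=
  (Fintype.piFinset (fun _ : V => range (n + 1))).filter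
    (fun c => (∀ v, c v = 0 ↔ v ∉ S) ∧ ∀ u ∈ S, ∀ v ∈ S, G.Adj u v → c u ≠ c v)

theorem mem_cols {S : Finset V} {n : ℕ} {c : V → ℕ} :
    c ∈ cols G S n ↔ (∀ v, c v ≤ n) ∧ (∀ v, c v = 0 ↔ v ∉ S) ∧
      ∀ u ∈ S, ∀ v ∈ S, G.Adj u v → c u ≠ c v := by
  simp [cols, Fintype.mem_piFinset, Nat.lt_succ_iff]

/-- number of proper colourings of `G[S]` with `n` colours -/
def N (S : Finset V) (n : ℕ) : ℕ := (cols G S n).card

theorem N_succ (S : Finset V) (n : ℕ) :
    N G S (n + 1) = ∑ I ∈ S.powerset.filter (fun I => Indep G I), N G (S \ I) n := by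
  classical
  unfold N
  rw [Finset.card_eq_sum_card_fiberwise (f := fun c => univ.filter (fun v => c v = n + 1))
    (t := S.powerset.filter (fun I => Indep G I))]
  · apply Finset.sum_congr rfl
    intro I hI
    rw [Finset.mem_filter, Finset.mem_powerset] at hI
    obtain ⟨hIS, hI2⟩ := hI
    apply Finset.card_nbij' (fun c v => if c v = n + 1 then 0 else c v)
      (fun c v => if v ∈ I then n + 1 else c v)
    · intro c hc
      simp only [Finset.coe_filter, Set.mem_setOf_eq] at hc
      obtain ⟨hc, hcI⟩ := hc
      rw [mem_cols] at hc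
      obtain ⟨h1, h2, h3⟩ := hc
      have hI' : ∀ v, v ∈ I ↔ c v = n + 1 := by
        intro v; rw [← hcI]; simp
      rw [Finset.mem_coe, mem_cols]
      refine ⟨?_, ?_, ?_⟩
      · intro v
        by_cases h : c v = n + 1
        · simp [h]
        · have := h1 v
          simp only [h, if_false]
          omega
      · intro v
        by_cases h : c v = n + 1
        · have hv : v ∈ I := (hI' v).2 h
          simp [h, hv]
        · have hv : v ∉ I := fun hh => h ((hI' v).1 hh)
          simp [h, hv, h2 v]
      · intro u hu v hv huv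
        rw [Finset.mem_sdiff] at hu hv
        have hu' : c u ≠ n + 1 := fun hh => hu.2 ((hI' u).2 hh)
        have hv' : c v ≠ n + 1 := fun hh => hv.2 ((hI' v).2 hh)
        simp only [hu', hv', if_false]
        exact h3 u hu.1 v hv.1 huv
    · intro c hc
      rw [Finset.mem_coe, mem_cols] at hc
      obtain ⟨h1, h2, h3⟩ := hc
      simp only [Finset.coe_filter, Set.mem_setOf_eq]
      refine ⟨?_, ?_⟩
      · rw [mem_cols]
        refine ⟨?_, ?_, ?_⟩
        · intro v
          by_cases h : v ∈ I
          · simp [h]
          · have := h1 v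
            simp only [h, if_false]
            omega
        · intro v
          by_cases h : v ∈ I
          · simp [h, hIS h]
          · simp [h, h2 v]
        · intro u hu v hv huv
          by_cases hu' : u ∈ I
          · by_cases hv' : v ∈ I
            · exact absurd huv (hI2 u hu' v hv')
            · have := h1 v
              simp only [hu', hv', if_true, if_false]
              omega
          · by_cases hv' : v ∈ I
            · have := h1 u
              simp only [hu', hv', if_true, if_false]
              omega
            · simp only [hu', hv', if_false]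
              exact h3 u (Finset.mem_sdiff.2 ⟨hu, hu'⟩) v (Finset.mem_sdiff.2 ⟨hv, hv'⟩) huv
      · ext v
        rw [Finset.mem_filter]
        by_cases h : v ∈ I
        · simp [h]
        · have := h1 v
          simp only [Finset.mem_univ, h, if_false, true_and, iff_false]
          omega
    · intro c hc
      simp only [Finset.coe_filter, Set.mem_setOf_eq] at hc
      obtain ⟨hc, hcI⟩ := hc
      have hI' : ∀ v, v ∈ I ↔ c v = n + 1 := by
        intro v; rw [← hcI]; simp
      funext v
      by_cases h : c v = n + 1
      · have hv : v ∈ I := (hI' v).2 h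
        simp [h, hv]
      · have hv : v ∉ I := fun hh => h ((hI' v).1 hh)
        simp [h, hv]
    · intro c hc
      rw [Finset.mem_coe, mem_cols] at hc
      obtain ⟨h1, h2, h3⟩ := hc
      funext v
      by_cases h : v ∈ I
      · have : c v = 0 := (h2 v).2 (by simp [h])
        simp [h, this]
      · have := h1 v
        have h' : c v ≠ n + 1 := by omega
        simp [h, h']
  · intro c hc
    rw [Finset.mem_coe, mem_cols] at hc
    obtain ⟨h1, h2, h3⟩ := hc
    rw [Finset.mem_coe, Finset.mem_filter, Finset.mem_powerset]
    have hS : ∀ v, c v = n + 1 → v ∈ S := by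
      intro v hv
      by_contra hh
      have := (h2 v).2 hh
      omega
    refine ⟨?_, ?_⟩
    · intro v hv
      exact hS v (Finset.mem_filter.1 hv).2
    · intro u hu v hv huv
      have hu := (Finset.mem_filter.1 hu).2
      have hv := (Finset.mem_filter.1 hv).2
      exact h3 u (hS u hu) v (hS v hv) huv (by rw [hu, hv])

theorem N_zero {S : Finset V} (hS : S.Nonempty) : N G S 0 = 0 := by
  unfold N
  rw [Finset.card_eq_zero, Finset.eq_empty_iff_forall_notMem]
  intro c hc
  rw [mem_cols] at hc
  obtain ⟨v, hv⟩ := hS
  exact (hc.2.1 v).1 (by have := hc.1 v; omega) hv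

theorem N_empty (n : ℕ) : N G (∅ : Finset V) n = 1 := by
  unfold N
  rw [Finset.card_eq_one]
  refine ⟨fun _ => 0, ?_⟩
  ext c
  rw [mem_cols, Finset.mem_singleton]
  constructor
  · intro h
    funext v
    exact (h.2.1 v).2 (Finset.notMem_empty v)
  · rintro rfl
    simp

theorem N_rec (n : ℕ) : ∀ (S : Finset V) (v : V), v ∈ S →
    N G S (n + 1) = (n + 1) * ∑ I ∈ S.powerset.filter (fun I => Indep G I ∧ v ∈ I),
      N G (S \ I) n := by
  classical
  induction n with
  | zero =>
    intro S v hv
    rw [N_succ, zero_add, one_mul]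
    symm
    apply Finset.sum_subset_zero_on_sdiff
    · intro I hI
      rw [Finset.mem_filter] at hI ⊢
      exact ⟨hI.1, hI.2.1⟩
    · intro I hI
      rw [Finset.mem_sdiff, Finset.mem_filter, Finset.mem_filter] at hI
      apply N_zero
      refine ⟨v, Finset.mem_sdiff.2 ⟨hv, fun hh => hI.2 ⟨hI.1.1, hI.1.2, hh⟩⟩⟩
    · intro I _; rfl
  | succ n ih =>
    intro S v hv
    rw [N_succ]
    rw [← Finset.sum_filter_add_sum_filter_not (S.powerset.filter (fun I => Indep G I))
      (fun I => v ∈ I)]
    rw [Finset.filter_filter, Finset.filter_filter]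
    have h2 : ∑ I ∈ S.powerset.filter (fun I => Indep G I ∧ ¬ v ∈ I), N G (S \ I) (n + 1)
        = (n + 1) * ∑ J ∈ S.powerset.filter (fun I => Indep G I ∧ v ∈ I), N G (S \ J) (n + 1) := by
      have h3 : ∀ I ∈ S.powerset.filter (fun I => Indep G I ∧ ¬ v ∈ I),
          N G (S \ I) (n + 1) = (n + 1) * ∑ J ∈ (S \ I).powerset.filter
            (fun J => Indep G J ∧ v ∈ J), N G ((S \ I) \ J) n := by
        intro I hI
        rw [Finset.mem_filter] at hI
        exact ih (S \ I) v (Finset.mem_sdiff.2 ⟨hv, hI.2.2⟩)
      rw [Finset.sum_congr rfl h3, ← Finset.mul_sum]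
      congr 1
      rw [Finset.sum_comm' (t' := S.powerset.filter (fun J => Indep G J ∧ v ∈ J))
        (s' := fun J => (S \ J).powerset.filter (fun I => Indep G I))]
      · apply Finset.sum_congr rfl
        intro J hJ
        rw [N_succ]
        apply Finset.sum_congr rfl
        intro I hI
        rw [sdiff_right_comm]
      · intro I J
        simp only [Finset.mem_filter, Finset.mem_powerset]
        constructor
        · rintro ⟨⟨h1, h2, h3⟩, h4, h5, h6⟩
          refine ⟨⟨?_, h2⟩, ?_, h5, h6⟩
          · intro w hw
            rw [Finset.mem_sdiff]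
            refine ⟨h1 hw, fun hh => ?_⟩
            exact (Finset.mem_sdiff.1 (h4 hh)).2 hw
          · exact h4.trans Finset.sdiff_subset
        · rintro ⟨⟨h1, h2⟩, h4, h5, h6⟩
          refine ⟨⟨h1.trans Finset.sdiff_subset, h2, ?_⟩, ?_, h5, h6⟩
          · intro hh
            exact (Finset.mem_sdiff.1 (h1 hh)).2 h6
          · intro w hw
            rw [Finset.mem_sdiff]
            refine ⟨h4 hw, fun hh => ?_⟩
            exact (Finset.mem_sdiff.1 (h1 hh)).2 hw
    rw [h2]
    push_cast
    ring

end Count

end Pool.Agent.ChromA2
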