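import Mathlib

set_option autoImplicit false

namespace Pool.Agent.ChromA2

open Finset

/-- the abstract recursive system satisfied by the chromatic polynomials of the induced subgraphs
of a graph whose complement (with indicator `h`) is triangle-free -/
structure Sys {V : Type*} [DecidableEq V] (h : V → V → ℂ) (F : Finset V → ℂ → ℂ) : Prop where
  symm : ∀ a b, h a b = h b a
  diag : ∀ a, h a a = 0
  tri : ∀ a b c, h a b * h b c * h a c = 0
  emp : ∀ q, F ∅ q = 1
  ins : ∀ (T : Finset V) (v : V), v ∉ T → ∀ q, F (insert v T) q =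
    q * (F T (q - 1) + ∑ u ∈ T, h v u * F (T.erase u) (q - 1))

section Ident

variable {V : Type*} [DecidableEq V] {h : V → V → ℂ} {F : Finset V → ℂ → ℂ}

theorem sum_triple (T : Finset V) (g : V → V → V → ℂ) :
    ∑ u ∈ T, ∑ a ∈ T.erase u, ∑ b ∈ T.erase u, g u a b
      = ∑ a ∈ T, ∑ b ∈ T, ∑ u ∈ (T.erase a).erase b, g u a b := by
  rw [Finset.sum_comm' (t' := T) (s' := fun a => T.erase a)]
  · apply Finset.sum_congr rfl
    intro a ha
    rw [Finset.sum_comm' (t' := T) (s' := fun b => (T.erase a).erase b)]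
    intro u b
    simp only [Finset.mem_erase]
    constructor
    · rintro ⟨⟨h1, h2⟩, h3, h4⟩
      exact ⟨⟨fun hh => h3 hh.symm, h1, h2⟩, h4⟩
    · rintro ⟨⟨h1, h2, h3⟩, h4⟩
      exact ⟨⟨h2, h3⟩, fun hh => h1 hh.symm, h4⟩
  · intro u a
    simp only [Finset.mem_erase]
    constructor
    · rintro ⟨h1, h2, h3⟩
      exact ⟨⟨fun hh => h2 hh.symm, h1⟩, h3⟩
    · rintro ⟨⟨h1, h2⟩, h3⟩
      exact ⟨h2, fun hh => h1 hh.symm, h3⟩

theorem star (hF : Sys h F) : ∀ (n : ℕ) (S : Finset V), S.card = n → ∀ Q : ℂ,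
    Q * F S (Q - 1) = (Q - S.card) * F S Q
      + Q / 2 * ∑ a ∈ S, ∑ b ∈ S, h a b * F ((S.erase a).erase b) (Q - 1) := by
  intro n
  induction n using Nat.strong_induction_on with
  | _ n ih =>
    intro S hS Q
    rcases S.eq_empty_or_nonempty with rfl | ⟨v, hv⟩
    · simp [hF.emp]
    · obtain ⟨T, hvT, rfl⟩ : ∃ T, v ∉ T ∧ insert v T = S :=
        ⟨S.erase v, Finset.notMem_erase v S, Finset.insert_erase hv⟩
      rw [Finset.card_insert_of_notMem hvT] at hS
      have hT := ih T.card (by omega) T rfl (Q - 1)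
      have hTu : ∀ u ∈ T, (Q - 1) * F (T.erase u) (Q - 1 - 1) =
          (Q - T.card) * F (T.erase u) (Q - 1) + (Q - 1) / 2 *
          ∑ a ∈ T.erase u, ∑ b ∈ T.erase u,
            h a b * F (((T.erase u).erase a).erase b) (Q - 1 - 1) := by
        intro u hu
        have h1 : (T.erase u).card + 1 = T.card := Finset.card_erase_add_one hu
        have h2 := ih (T.erase u).card (by omega) (T.erase u) rfl (Q - 1)
        rw [h2]
        have h3 : (T.card : ℂ) = (T.erase u).card + 1 := by rw [← h1]; push_cast; ring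
        rw [h3]
        ring
      -- the double sum
      have hds : ∑ a ∈ insert v T, ∑ b ∈ insert v T,
          h a b * F (((insert v T).erase a).erase b) (Q - 1)
          = 2 * ∑ u ∈ T, h v u * F (T.erase u) (Q - 1)
            + ∑ a ∈ T, ∑ b ∈ T, h a b * ((Q - 1) * (F ((T.erase a).erase b) (Q - 1 - 1)
              + ∑ u ∈ (T.erase a).erase b, h v u * F (((T.erase a).erase b).erase u)
                  (Q - 1 - 1))) := by
        rw [Finset.sum_insert hvT, Finset.sum_insert hvT, hF.diag, zero_mul, zero_add,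
          Finset.erase_insert hvT]
        have h1 : ∀ a ∈ T, ∑ b ∈ insert v T, h a b * F (((insert v T).erase a).erase b) (Q - 1)
            = h v a * F (T.erase a) (Q - 1) + ∑ b ∈ T, h a b * ((Q - 1) *
              (F ((T.erase a).erase b) (Q - 1 - 1)
              + ∑ u ∈ (T.erase a).erase b, h v u * F (((T.erase a).erase b).erase u)
                  (Q - 1 - 1))) := by
          intro a ha
          have hav : v ≠ a := fun hh => hvT (hh ▸ ha)
          rw [Finset.sum_insert hvT]
          congr 1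
          · rw [hF.symm a v, Finset.erase_right_comm, Finset.erase_insert hvT]
          · apply Finset.sum_congr rfl
            intro b hb
            have hbv : v ≠ b := fun hh => hvT (hh ▸ hb)
            rw [Finset.erase_insert_of_ne hav, Finset.erase_insert_of_ne hbv, hF.ins]
            intro hh
            exact hvT (Finset.mem_of_mem_erase (Finset.mem_of_mem_erase hh))
        rw [Finset.sum_congr rfl h1, Finset.sum_add_distrib]
        ring
      have hswap : ∑ u ∈ T, h v u * ∑ a ∈ T.erase u, ∑ b ∈ T.erase u,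
            h a b * F (((T.erase u).erase a).erase b) (Q - 1 - 1)
          = ∑ a ∈ T, ∑ b ∈ T, h a b * ∑ u ∈ (T.erase a).erase b,
            h v u * F (((T.erase a).erase b).erase u) (Q - 1 - 1) := by
        simp only [Finset.mul_sum]
        rw [sum_triple]
        apply Finset.sum_congr rfl
        intro a _
        apply Finset.sum_congr rfl
        intro b _
        apply Finset.sum_congr rfl
        intro u _
        have : ((T.erase u).erase a).erase b = ((T.erase a).erase b).erase u := by
          rw [Finset.erase_right_comm (a := u) (b := a), Finset.erase_right_comm (a := u) (b := b)]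
        rw [this]
        ring
      have hA : (Q - 1) * ∑ u ∈ T, h v u * F (T.erase u) (Q - 1 - 1)
          = (Q - T.card) * ∑ u ∈ T, h v u * F (T.erase u) (Q - 1)
            + (Q - 1) / 2 * ∑ u ∈ T, h v u * ∑ a ∈ T.erase u, ∑ b ∈ T.erase u,
            h a b * F (((T.erase u).erase a).erase b) (Q - 1 - 1) := by
        rw [Finset.mul_sum, Finset.mul_sum, Finset.mul_sum, ← Finset.sum_add_distrib]
        apply Finset.sum_congr rfl
        intro u hu
        linear_combination h v u * hTu u hu
      have hB : ∑ a ∈ T, ∑ b ∈ T, h a b * ((Q - 1) * (F ((T.erase a).erase b) (Q - 1 - 1)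
              + ∑ u ∈ (T.erase a).erase b, h v u * F (((T.erase a).erase b).erase u)
                  (Q - 1 - 1)))
          = (Q - 1) * ∑ a ∈ T, ∑ b ∈ T, h a b * F ((T.erase a).erase b) (Q - 1 - 1)
            + (Q - 1) * ∑ a ∈ T, ∑ b ∈ T, h a b * ∑ u ∈ (T.erase a).erase b,
            h v u * F (((T.erase a).erase b).erase u) (Q - 1 - 1) := by
        rw [Finset.mul_sum, Finset.mul_sum, ← Finset.sum_add_distrib]
        apply Finset.sum_congr rfl
        intro a _
        rw [Finset.mul_sum, Finset.mul_sum, ← Finset.sum_add_distrib]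
        apply Finset.sum_congr rfl
        intro b _
        ring
      rw [hds, hB, ← hswap, hF.ins T v hvT (Q - 1), hF.ins T v hvT Q,
        Finset.card_insert_of_notMem hvT]
      push_cast
      linear_combination Q * hT + Q * hA

/-- removing a vertex `w` of `T` -/
theorem peel (hF : Sys h F) (T : Finset V) (w : V) (hw : w ∈ T) (Q : ℂ) :
    Q * F (T.erase w) (Q - 1) = F T Q - Q * ∑ b ∈ T, h w b * F ((T.erase w).erase b) (Q - 1) := by
  have h1 := hF.ins (T.erase w) w (Finset.notMem_erase w T) Q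
  rw [Finset.insert_erase hw] at h1
  have h2 : ∑ b ∈ T, h w b * F ((T.erase w).erase b) (Q - 1)
      = ∑ b ∈ T.erase w, h w b * F ((T.erase w).erase b) (Q - 1) := by
    rw [← Finset.add_sum_erase T _ hw, hF.diag, zero_mul, zero_add]
  rw [h2, h1]
  ring

/-- symmetric kernels: an antisymmetric weight sums to zero -/
theorem antisymm_sum (T : Finset V) (κ g : V → V → ℂ) (hg : ∀ a b, g a b = g b a)
    (hκ : ∀ a ∈ T, ∀ b ∈ T, κ a b + κ b a = 0) : ∑ a ∈ T, ∑ b ∈ T, κ a b * g a b = 0 := by
  have h1 : ∑ a ∈ T, ∑ b ∈ T, κ a b * g a b = ∑ a ∈ T, ∑ b ∈ T, κ b a * g a b := by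
    rw [Finset.sum_comm]
    apply Finset.sum_congr rfl
    intro a _
    apply Finset.sum_congr rfl
    intro b _
    rw [hg]
  have h2 : ∑ a ∈ T, ∑ b ∈ T, κ a b * g a b + ∑ a ∈ T, ∑ b ∈ T, κ b a * g a b = 0 := by
    rw [← Finset.sum_add_distrib]
    apply Finset.sum_eq_zero
    intro a ha
    rw [← Finset.sum_add_distrib]
    apply Finset.sum_eq_zero
    intro b hb
    rw [← add_mul, hκ a ha b hb, zero_mul]
  rw [← h1] at h2
  have h3 : (2 : ℂ) * ∑ a ∈ T, ∑ b ∈ T, κ a b * g a b = 0 := by rw [two_mul]; exact h2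
  exact (mul_eq_zero.1 h3).resolve_left two_ne_zero

theorem J4 (hF : Sys h F) (T : Finset V) (u : V) (hu : u ∉ T) (Q : ℂ) :
    F (insert u T) Q = (Q - T.card + ∑ w ∈ T, h u w) * F T Q
      + Q / 2 * ∑ a ∈ T, ∑ b ∈ T, h a b * (1 - h u a) * (1 - h u b) *
        F ((T.erase a).erase b) (Q - 1) := by
  have h1 := hF.ins T u hu Q
  have h2 := star hF T.card T rfl Q
  have h3 : Q * ∑ w ∈ T, h u w * F (T.erase w) (Q - 1)
      = (∑ w ∈ T, h u w) * F T Q
        - Q * ∑ a ∈ T, ∑ b ∈ T, h u a * h a b * F ((T.erase a).erase b) (Q - 1) := by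
    rw [Finset.mul_sum, Finset.sum_mul, Finset.mul_sum, ← Finset.sum_sub_distrib]
    apply Finset.sum_congr rfl
    intro w hw
    have h4 := peel hF T w hw Q
    have h5 : ∑ b ∈ T, h u w * h w b * F ((T.erase w).erase b) (Q - 1)
        = h u w * ∑ b ∈ T, h w b * F ((T.erase w).erase b) (Q - 1) := by
      rw [Finset.mul_sum]
      apply Finset.sum_congr rfl
      intro b _
      ring
    rw [h5]
    linear_combination h u w * h4
  have h6 : ∑ a ∈ T, ∑ b ∈ T, ((h a b - 2 * (h u a * h a b)
      - h a b * (1 - h u a) * (1 - h u b))) * F ((T.erase a).erase b) (Q - 1) = 0 := by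
    apply antisymm_sum T _ (fun a b => F ((T.erase a).erase b) (Q - 1))
    · intro a b
      rw [Finset.erase_right_comm]
    · intro a _ b _
      have t := hF.tri a b u
      have s1 := hF.symm a b
      have s2 := hF.symm b u
      have s3 := hF.symm a u
      rw [s2, s3] at t
      rw [← s1]
      linear_combination (-2) * t
  have h7 : ∑ a ∈ T, ∑ b ∈ T, ((h a b - 2 * (h u a * h a b)
      - h a b * (1 - h u a) * (1 - h u b))) * F ((T.erase a).erase b) (Q - 1)
      = ∑ a ∈ T, ∑ b ∈ T, h a b * F ((T.erase a).erase b) (Q - 1)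
        - 2 * ∑ a ∈ T, ∑ b ∈ T, h u a * h a b * F ((T.erase a).erase b) (Q - 1)
        - ∑ a ∈ T, ∑ b ∈ T, h a b * (1 - h u a) * (1 - h u b) *
          F ((T.erase a).erase b) (Q - 1) := by
    rw [Finset.mul_sum, ← Finset.sum_sub_distrib, ← Finset.sum_sub_distrib]
    apply Finset.sum_congr rfl
    intro a _
    rw [Finset.mul_sum, ← Finset.sum_sub_distrib, ← Finset.sum_sub_distrib]
    apply Finset.sum_congr rfl
    intro b _
    ring
  rw [h7] at h6
  rw [h1]
  linear_combination h2 + h3 + Q / 2 * h6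

theorem J12 (hF : Sys h F) (M : Finset V) (x y : V) (hxy : x ≠ y) (hx : x ∉ M) (hy : y ∉ M)
    (q : ℂ) :
    F (insert x (insert y M)) q = q * (
      (q - 1 - M.card + ∑ w ∈ M, h y w + ∑ u ∈ M, h x u * (1 - h y u) + h x y) * F M (q - 1)
      + ∑ z ∈ M, h x z * h y z * ((q - 1) * F (M.erase z) (q - 1 - 1))
      + ∑ a ∈ M, ∑ b ∈ M, (1 / 2) * (h a b * (1 - h x a) * (1 - h y a) * (1 - h x b)
          * (1 - h y b)) * ((q - 1) * F ((M.erase a).erase b) (q - 1 - 1))
      + ∑ u ∈ M, ∑ w ∈ M, (if u = w then 0 else 1) * (h x u * h y w * (1 - h u w)) *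
          ((q - 1) * F ((M.erase u).erase w) (q - 1 - 1))) := by
  have h1 := hF.ins (insert y M) x (by
    rw [Finset.mem_insert]; rintro (hh | hh)
    · exact hxy hh
    · exact hx hh) q
  have h2 : ∑ u ∈ insert y M, h x u * F ((insert y M).erase u) (q - 1)
      = h x y * F M (q - 1) + ∑ u ∈ M, h x u * F (insert y (M.erase u)) (q - 1) := by
    rw [Finset.sum_insert hy, Finset.erase_insert hy]
    congr 1
    apply Finset.sum_congr rfl
    intro u hu
    rw [Finset.erase_insert_of_ne]
    exact fun hh => hy (hh ▸ hu)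
  have h3 := J4 hF M y hy (q - 1)
  have h4 : ∑ u ∈ M, h x u * F (insert y (M.erase u)) (q - 1)
      = ∑ u ∈ M, h x u * h y u * ((q - 1) * F (M.erase u) (q - 1 - 1))
        + (∑ u ∈ M, h x u * (1 - h y u)) * F M (q - 1)
        - ∑ a ∈ M, ∑ b ∈ M, (h x a * (1 - h y a) * h a b) *
          ((q - 1) * F ((M.erase a).erase b) (q - 1 - 1))
        + ∑ u ∈ M, ∑ w ∈ M, (if u = w then 0 else 1) * (h x u * h y w) *
          ((q - 1) * F ((M.erase u).erase w) (q - 1 - 1)) := by
    rw [Finset.sum_mul, ← Finset.sum_add_distrib, ← Finset.sum_sub_distrib,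
      ← Finset.sum_add_distrib]
    apply Finset.sum_congr rfl
    intro u hu
    have e1 := hF.ins (M.erase u) y (fun hh => hy (Finset.mem_of_mem_erase hh)) (q - 1)
    have e2 := peel hF M u hu (q - 1)
    have e3 : ∑ w ∈ M, (if u = w then 0 else 1) * (h x u * h y w) *
          ((q - 1) * F ((M.erase u).erase w) (q - 1 - 1))
        = h x u * (q - 1) * ∑ w ∈ M.erase u, h y w * F ((M.erase u).erase w) (q - 1 - 1) := by
      rw [← Finset.add_sum_erase M _ hu, if_pos rfl]
      simp only [zero_mul, zero_add]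
      rw [Finset.mul_sum]
      apply Finset.sum_congr rfl
      intro w hw
      rw [if_neg (fun hh => (Finset.mem_erase.1 hw).1 hh.symm)]
      ring
    have e4 : ∑ b ∈ M, (h x u * (1 - h y u) * h u b) *
          ((q - 1) * F ((M.erase u).erase b) (q - 1 - 1))
        = h x u * (1 - h y u) * (q - 1) *
          ∑ b ∈ M, h u b * F ((M.erase u).erase b) (q - 1 - 1) := by
      rw [Finset.mul_sum]
      apply Finset.sum_congr rfl
      intro w hw
      ring
    rw [e3, e4, e1]
    linear_combination (h x u * (1 - h y u)) * e2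
  have h5 : ∑ a ∈ M, ∑ b ∈ M,
      ((1 / 2) * (h a b * (1 - h y a) * (1 - h y b)) - h x a * (1 - h y a) * h a b
        + (if a = b then 0 else 1) * (h x a * h y b)
        - (1 / 2) * (h a b * (1 - h x a) * (1 - h y a) * (1 - h x b) * (1 - h y b))
        - (if a = b then 0 else 1) * (h x a * h y b * (1 - h a b))) *
        ((q - 1) * F ((M.erase a).erase b) (q - 1 - 1)) = 0 := by
    apply antisymm_sum M _ (fun a b => (q - 1) * F ((M.erase a).erase b) (q - 1 - 1))
    · intro a b
      rw [Finset.erase_right_comm]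
    · intro a _ b _
      by_cases hab : a = b
      · subst hab
        simp [hF.diag]
      · have hba : ¬ b = a := fun hh => hab hh.symm
        rw [if_neg hab, if_neg hba]
        have t1 := hF.tri a b x
        have t2 := hF.tri a b y
        have s1 := hF.symm a b
        rw [hF.symm b x, hF.symm a x] at t1
        rw [hF.symm b y, hF.symm a y] at t2
        rw [← s1]
        linear_combination (h x a + h x b) * t2 - (1 - h y a) * (1 - h y b) * t1
  have h6 : ∑ a ∈ M, ∑ b ∈ M,
      ((1 / 2) * (h a b * (1 - h y a) * (1 - h y b)) - h x a * (1 - h y a) * h a b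
        + (if a = b then 0 else 1) * (h x a * h y b)
        - (1 / 2) * (h a b * (1 - h x a) * (1 - h y a) * (1 - h x b) * (1 - h y b))
        - (if a = b then 0 else 1) * (h x a * h y b * (1 - h a b))) *
        ((q - 1) * F ((M.erase a).erase b) (q - 1 - 1))
      = (q - 1) / 2 * ∑ a ∈ M, ∑ b ∈ M, h a b * (1 - h y a) * (1 - h y b) *
          F ((M.erase a).erase b) (q - 1 - 1)
        - ∑ a ∈ M, ∑ b ∈ M, (h x a * (1 - h y a) * h a b) *
          ((q - 1) * F ((M.erase a).erase b) (q - 1 - 1))
        + ∑ u ∈ M, ∑ w ∈ M, (if u = w then 0 else 1) * (h x u * h y w) *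
          ((q - 1) * F ((M.erase u).erase w) (q - 1 - 1))
        - ∑ a ∈ M, ∑ b ∈ M, (1 / 2) * (h a b * (1 - h x a) * (1 - h y a) * (1 - h x b)
          * (1 - h y b)) * ((q - 1) * F ((M.erase a).erase b) (q - 1 - 1))
        - ∑ u ∈ M, ∑ w ∈ M, (if u = w then 0 else 1) * (h x u * h y w * (1 - h u w)) *
          ((q - 1) * F ((M.erase u).erase w) (q - 1 - 1)) := by
    rw [Finset.mul_sum, ← Finset.sum_sub_distrib, ← Finset.sum_add_distrib,
      ← Finset.sum_sub_distrib, ← Finset.sum_sub_distrib]
    apply Finset.sum_congr rfl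
    intro a _
    rw [Finset.mul_sum, ← Finset.sum_sub_distrib, ← Finset.sum_add_distrib,
      ← Finset.sum_sub_distrib, ← Finset.sum_sub_distrib]
    apply Finset.sum_congr rfl
    intro b _
    ring
  rw [h6] at h5
  rw [h1]
  congr 1
  rw [h2]
  linear_combination h3 + h4 + h5

end Ident

end Pool.Agent.ChromA2
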