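import Mathlib
import Pool.Agent.Lib_helper95.ChromA2.Ident

set_option autoImplicit false

namespace Pool.Agent.ChromA2

open Finset

section Main

variable {V : Type*} [DecidableEq V] (H : V → V → Prop) [DecidableRel H]

/-- indicator of the complement graph -/
def e (a b : V) : ℝ := if H a b then 1 else 0

omit [DecidableEq V] in
theorem e_pos {a b : V} (h : H a b) : e H a b = 1 := if_pos h

omit [DecidableEq V] in
theorem e_neg {a b : V} (h : ¬ H a b) : e H a b = 0 := if_neg h

omit [DecidableEq V] in
theorem e_nonneg (a b : V) : 0 ≤ e H a b := by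
  unfold e; split_ifs <;> norm_num

omit [DecidableEq V] in
theorem e_le_one (a b : V) : e H a b ≤ 1 := by
  unfold e; split_ifs <;> norm_num

/-- degree of `z` in `G[S]` (for `z ∈ S`) -/
def dg (S : Finset V) (z : V) : ℝ := S.card - 1 - ∑ u ∈ S, e H z u

theorem dg_erase (S : Finset V) (x : V) (hx : x ∈ S) (z : V) :
    dg H (S.erase x) z = dg H S z - 1 + e H z x := by
  have h1 : (S.erase x).card + 1 = S.card := Finset.card_erase_add_one hx
  have h2 : ∑ u ∈ S, e H z u = e H z x + ∑ u ∈ S.erase x, e H z u :=
    (Finset.add_sum_erase S _ hx).symm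
  unfold dg
  rw [h2, ← h1]
  push_cast
  ring

theorem dg_nonneg (S : Finset V) (z : V) (hz : z ∈ S) (hi : ¬ H z z) : 0 ≤ dg H S z := by
  have h1 : (S.erase z).card + 1 = S.card := Finset.card_erase_add_one hz
  have h2 : ∑ u ∈ S, e H z u = e H z z + ∑ u ∈ S.erase z, e H z u :=
    (Finset.add_sum_erase S _ hz).symm
  have h3 : ∑ u ∈ S.erase z, e H z u ≤ ∑ u ∈ S.erase z, (1 : ℝ) :=
    Finset.sum_le_sum (fun u _ => e_le_one H z u)
  rw [Finset.sum_const, nsmul_eq_mul, mul_one] at h3
  unfold dg
  rw [h2, e_neg H hi, ← h1]
  push_cast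
  linarith

/-- the half-plane condition -/
def good (S : Finset V) (q : ℂ) : Prop := ∀ z ∈ S, dg H S z < q.re

theorem re_inv_nonneg {a b : ℂ} (h : 0 < (a / b).re) : 0 ≤ (b / a).re := by
  rw [← inv_div, Complex.inv_re]
  exact div_nonneg h.le (Complex.normSq_nonneg _)

theorem term {k : ℝ} {W r : ℂ} (hk : 0 ≤ k) (hW : k ≠ 0 → 0 < (r / W).re) :
    0 ≤ ((k : ℂ) * W / r).re := by
  by_cases h0 : k = 0
  · simp [h0]
  · rw [mul_div_assoc, Complex.re_ofReal_mul]
    exact mul_nonneg hk (re_inv_nonneg (hW h0))

theorem main (hs : ∀ a b, H a b → H b a) (hi : ∀ a, ¬ H a a)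
    (ht : ∀ a b c, H a b → H b c → ¬ H a c) {F : Finset V → ℂ → ℂ}
    (hF : Sys (fun a b => ((e H a b : ℝ) : ℂ)) F) :
    ∀ (n : ℕ) (S : Finset V), S.card = n → ∀ q : ℂ,
      (good H S q → F S q ≠ 0) ∧
      (∀ x y : V, good H S q → x ∈ S → y ∈ S → x ≠ y →
        (∀ z ∈ S, H x z → H y z → dg H S z + 1 < q.re) →
        0 < (F S q / (q * F ((S.erase x).erase y) (q - 1))).re) ∧
      (∀ z : V, good H S q → z ∈ S → (∀ u ∈ S, H z u → dg H S u + 1 < q.re) →
        0 < (F S q / (q * F (S.erase z) (q - 1))).re) ∧
      (∀ u : V, u ∈ S → good H (S.erase u) q →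
        q.re - dg H S u ≤ (F S q / F (S.erase u) q).re) := by
  intro n
  induction n using Nat.strong_induction_on with
  | _ n ih =>
    intro S hS q
    have hes : ∀ a b, e H a b = e H b a := by
      intro a b
      by_cases h : H a b
      · rw [e_pos H h, e_pos H (hs a b h)]
      · rw [e_neg H h, e_neg H (fun hh => h (hs b a hh))]
    have hee : ∀ a, e H a a = 0 := fun a => e_neg H (hi a)
    have hQre : (q - 1).re = q.re - 1 := by simp
    have hcard1 : ∀ v ∈ S, (S.erase v).card < n := by
      intro v hv
      have := Finset.card_erase_add_one hv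
      omega
    -- claim B
    have hB : ∀ x y : V, good H S q → x ∈ S → y ∈ S → x ≠ y →
        (∀ z ∈ S, H x z → H y z → dg H S z + 1 < q.re) →
        0 < (F S q / (q * F ((S.erase x).erase y) (q - 1))).re := by
      intro x y hg hx hy hxy hsafe
      have hyx : y ∈ S.erase x := Finset.mem_erase.2 ⟨hxy.symm, hy⟩
      obtain ⟨M, hM⟩ : ∃ M, M = (S.erase x).erase y := ⟨_, rfl⟩
      have hMS : ∀ z, z ∈ M → z ∈ S := fun z hz => by
        rw [hM] at hz
        exact Finset.mem_of_mem_erase (Finset.mem_of_mem_erase hz)
      have hxM : x ∉ M := by rw [hM]; simp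
      have hyM : y ∉ M := by rw [hM]; simp
      have hSM : insert x (insert y M) = S := by
        rw [hM, Finset.insert_erase hyx, Finset.insert_erase hx]
      have hMn : M.card < n := by
        have h1 := hcard1 x hx
        have h2 := Finset.card_erase_add_one hyx
        rw [hM]
        omega
      have hdM : ∀ z, dg H M z = dg H S z - 2 + e H z x + e H z y := by
        intro z
        rw [hM, dg_erase H _ y hyx, dg_erase H _ x hx]
        ring
      have hgM : good H M (q - 1) := by
        intro z hz
        rw [hQre, hdM]
        have h1 := hg z (hMS z hz)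
        by_cases hzx : H z x
        · by_cases hzy : H z y
          · have h2 := hsafe z (hMS z hz) (hs _ _ hzx) (hs _ _ hzy)
            rw [e_pos H hzx, e_pos H hzy]
            linarith
          · rw [e_pos H hzx, e_neg H hzy]
            linarith
        · rw [e_neg H hzx]
          have := e_le_one H z y
          linarith
      obtain ⟨ihN, ihB, ihC, -⟩ := ih M.card hMn M rfl (q - 1)
      have hr : F M (q - 1) ≠ 0 := ihN hgM
      have hq : q ≠ 0 := by
        intro hq0
        have h1 := hg x hx
        have h2 := dg_nonneg H S x hx (hi x)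
        rw [hq0, Complex.zero_re] at h1
        linarith
      have hJ := J12 hF M x y hxy hxM hyM q
      rw [hSM] at hJ
      rw [← hM]
      set r := F M (q - 1) with hrdef
      set A := ∑ z ∈ M, ((e H x z : ℝ) : ℂ) * ((e H y z : ℝ) : ℂ) *
        ((q - 1) * F (M.erase z) (q - 1 - 1)) with hA
      set B := ∑ a ∈ M, ∑ b ∈ M, (1 / 2) * (((e H a b : ℝ) : ℂ) * (1 - ((e H x a : ℝ) : ℂ))
          * (1 - ((e H y a : ℝ) : ℂ)) * (1 - ((e H x b : ℝ) : ℂ))
          * (1 - ((e H y b : ℝ) : ℂ))) * ((q - 1) * F ((M.erase a).erase b) (q - 1 - 1)) with hBd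
      set C := ∑ u ∈ M, ∑ w ∈ M, (if u = w then 0 else 1) * (((e H x u : ℝ) : ℂ) *
          ((e H y w : ℝ) : ℂ) * (1 - ((e H u w : ℝ) : ℂ))) *
          ((q - 1) * F ((M.erase u).erase w) (q - 1 - 1)) with hC
      have hAre : 0 ≤ (A / r).re := by
        rw [hA, Finset.sum_div, Complex.re_sum]
        apply Finset.sum_nonneg
        intro z hz
        have : ((e H x z : ℝ) : ℂ) * ((e H y z : ℝ) : ℂ) *
            ((q - 1) * F (M.erase z) (q - 1 - 1)) / r =
            ((e H x z * e H y z : ℝ) : ℂ) * ((q - 1) * F (M.erase z) (q - 1 - 1)) / r := by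
          push_cast; ring
        rw [this]
        apply term (mul_nonneg (e_nonneg H _ _) (e_nonneg H _ _))
        intro hk
        have hxz : H x z := by
          by_contra hh
          exact hk (by rw [e_neg H hh, zero_mul])
        have hyz : H y z := by
          by_contra hh
          exact hk (by rw [e_neg H hh, mul_zero])
        apply ihC z hgM hz
        intro u hu hzu
        rw [hQre, hdM]
        have h1 := hg u (hMS u hu)
        have h2 : ¬ H u x := fun hh => ht x z u hxz hzu (hs _ _ hh)
        have h3 : ¬ H u y := fun hh => ht y z u hyz hzu (hs _ _ hh)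
        rw [e_neg H h2, e_neg H h3]
        linarith
      have hBre : 0 ≤ (B / r).re := by
        rw [hBd, Finset.sum_div, Complex.re_sum]
        apply Finset.sum_nonneg
        intro a ha
        rw [Finset.sum_div, Complex.re_sum]
        apply Finset.sum_nonneg
        intro b hb
        have : (1 / 2) * (((e H a b : ℝ) : ℂ) * (1 - ((e H x a : ℝ) : ℂ))
            * (1 - ((e H y a : ℝ) : ℂ)) * (1 - ((e H x b : ℝ) : ℂ))
            * (1 - ((e H y b : ℝ) : ℂ))) * ((q - 1) * F ((M.erase a).erase b) (q - 1 - 1)) / r
            = ((1 / 2 * (e H a b * (1 - e H x a) * (1 - e H y a) * (1 - e H x b)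
              * (1 - e H y b)) : ℝ) : ℂ) * ((q - 1) * F ((M.erase a).erase b) (q - 1 - 1)) / r := by
          push_cast; ring
        rw [this]
        apply term
        · have h1 := sub_nonneg.2 (e_le_one H x a)
          have h2 := sub_nonneg.2 (e_le_one H y a)
          have h3 := sub_nonneg.2 (e_le_one H x b)
          have h4 := sub_nonneg.2 (e_le_one H y b)
          have h5 := e_nonneg H a b
          positivity
        intro hk
        have hab : H a b := by
          by_contra hh
          exact hk (by rw [e_neg H hh]; ring)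
        apply ihB a b hgM ha hb
        · rintro rfl
          exact hi a hab
        · intro z _ haz hbz
          exact absurd haz (ht a b z hab hbz)
      have hCre : 0 ≤ (C / r).re := by
        rw [hC, Finset.sum_div, Complex.re_sum]
        apply Finset.sum_nonneg
        intro u hu
        rw [Finset.sum_div, Complex.re_sum]
        apply Finset.sum_nonneg
        intro w hw
        have : (if u = w then (0 : ℂ) else 1) * (((e H x u : ℝ) : ℂ) *
            ((e H y w : ℝ) : ℂ) * (1 - ((e H u w : ℝ) : ℂ))) *
            ((q - 1) * F ((M.erase u).erase w) (q - 1 - 1)) / r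
            = (((if u = w then (0 : ℝ) else 1) * (e H x u * e H y w * (1 - e H u w)) : ℝ) : ℂ)
              * ((q - 1) * F ((M.erase u).erase w) (q - 1 - 1)) / r := by
          split_ifs <;> push_cast <;> ring
        rw [this]
        apply term
        · have h1 := sub_nonneg.2 (e_le_one H u w)
          have h2 := e_nonneg H x u
          have h3 := e_nonneg H y w
          have h4 : (0 : ℝ) ≤ (if u = w then (0 : ℝ) else 1) := by split_ifs <;> norm_num
          positivity
        intro hk
        have huw : u ≠ w := by
          intro hh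
          exact hk (by rw [if_pos hh]; ring)
        have hxu : H x u := by
          by_contra hh
          exact hk (by rw [e_neg H hh]; ring)
        have hyw : H y w := by
          by_contra hh
          exact hk (by rw [e_neg H hh]; ring)
        apply ihB u w hgM hu hw huw
        intro z hz huz hwz
        rw [hQre, hdM]
        have h1 := hg z (hMS z hz)
        have h2 : ¬ H z x := fun hh => ht x u z hxu huz (hs _ _ hh)
        have h3 : ¬ H z y := fun hh => ht y w z hyw hwz (hs _ _ hh)
        rw [e_neg H h2, e_neg H h3]
        linarith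
      -- the constant
      have hc : (q - 1 - (M.card : ℂ) + ∑ w ∈ M, ((e H y w : ℝ) : ℂ)
          + ∑ u ∈ M, ((e H x u : ℝ) : ℂ) * (1 - ((e H y u : ℝ) : ℂ)) + ((e H x y : ℝ) : ℂ))
          = q + ((- 1 - (M.card : ℝ) + ∑ w ∈ M, e H y w + ∑ u ∈ M, e H x u * (1 - e H y u)
            + e H x y : ℝ) : ℂ) := by
        push_cast; ring
      have hcre : 0 < (q + ((- 1 - (M.card : ℝ) + ∑ w ∈ M, e H y w
          + ∑ u ∈ M, e H x u * (1 - e H y u) + e H x y : ℝ) : ℂ)).re := by
        rw [Complex.add_re, Complex.ofReal_re]
        have h1 := hdM y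
        unfold dg at h1
        rw [hee, hes y x] at h1
        have h2 := hg y hy
        unfold dg at h2
        have h3 : 0 ≤ ∑ u ∈ M, e H x u * (1 - e H y u) :=
          Finset.sum_nonneg (fun u _ => mul_nonneg (e_nonneg H _ _)
            (sub_nonneg.2 (e_le_one H _ _)))
        linarith
      have hfin : F S q / (q * r) = (q + ((- 1 - (M.card : ℝ) + ∑ w ∈ M, e H y w
          + ∑ u ∈ M, e H x u * (1 - e H y u) + e H x y : ℝ) : ℂ)) + A / r + B / r + C / r := by
        rw [hJ, ← hc]
        field_simp
      rw [hfin, Complex.add_re, Complex.add_re, Complex.add_re]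
      linarith
    -- claim C
    have hC : ∀ z : V, good H S q → z ∈ S → (∀ u ∈ S, H z u → dg H S u + 1 < q.re) →
        0 < (F S q / (q * F (S.erase z) (q - 1))).re := by
      intro z hg hz hsafe
      obtain ⟨T, hT⟩ : ∃ T, T = S.erase z := ⟨_, rfl⟩
      have hTS : ∀ w, w ∈ T → w ∈ S := fun w hw => by
        rw [hT] at hw
        exact Finset.mem_of_mem_erase hw
      have hzT : z ∉ T := by rw [hT]; simp
      have hST : insert z T = S := by rw [hT, Finset.insert_erase hz]
      have hdT : ∀ w, dg H T w = dg H S w - 1 + e H w z := by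
        intro w
        rw [hT, dg_erase H _ z hz]
      have hgT : good H T (q - 1) := by
        intro w hw
        rw [hQre, hdT]
        have h1 := hg w (hTS w hw)
        by_cases hwz : H w z
        · have h2 := hsafe w (hTS w hw) (hs _ _ hwz)
          rw [e_pos H hwz]
          linarith
        · rw [e_neg H hwz]
          linarith
      obtain ⟨ihN, -, -, ihD⟩ := ih T.card (by rw [hT]; exact hcard1 z hz) T rfl (q - 1)
      have hr : F T (q - 1) ≠ 0 := ihN hgT
      have hq : q ≠ 0 := by
        intro hq0
        have h1 := hg z hz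
        have h2 := dg_nonneg H S z hz (hi z)
        rw [hq0, Complex.zero_re] at h1
        linarith
      have hI := hF.ins T z hzT q
      rw [hST] at hI
      rw [← hT]
      set r := F T (q - 1) with hrdef
      set A := ∑ u ∈ T, ((e H z u : ℝ) : ℂ) * F (T.erase u) (q - 1) with hA
      have hAre : 0 ≤ (A / r).re := by
        rw [hA, Finset.sum_div, Complex.re_sum]
        apply Finset.sum_nonneg
        intro u hu
        apply term (e_nonneg H _ _)
        intro hk
        have hzu : H z u := by
          by_contra hh
          exact hk (e_neg H hh)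
        have hgTu : good H (T.erase u) (q - 1) := by
          intro w hw
          have hwT := Finset.mem_of_mem_erase hw
          rw [hQre, dg_erase H T u hu, hdT]
          have h1 := hg w (hTS w hwT)
          by_cases hwz : H w z
          · have h2 : ¬ H w u := ht w z u hwz hzu
            rw [e_pos H hwz, e_neg H h2]
            linarith
          · rw [e_neg H hwz]
            have := e_le_one H w u
            linarith
        have h1 := ihD u hu hgTu
        rw [hQre, hdT, e_pos H (hs _ _ hzu)] at h1
        have h2 := hsafe u (hTS u hu) hzu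
        linarith
      have hfin : F S q / (q * r) = 1 + A / r := by
        rw [hI]
        field_simp
      rw [hfin, Complex.add_re, Complex.one_re]
      linarith
    -- claim D
    have hD : ∀ u : V, u ∈ S → good H (S.erase u) q →
        q.re - dg H S u ≤ (F S q / F (S.erase u) q).re := by
      intro u hu hgT
      obtain ⟨T, hT⟩ : ∃ T, T = S.erase u := ⟨_, rfl⟩
      have huT : u ∉ T := by rw [hT]; simp
      have hST : insert u T = S := by rw [hT, Finset.insert_erase hu]
      have hdT : ∀ w, dg H T w = dg H S w - 1 + e H w u := by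
        intro w
        rw [hT, dg_erase H _ u hu]
      rw [← hT] at hgT ⊢
      obtain ⟨ihN, ihB, -, -⟩ := ih T.card (by rw [hT]; exact hcard1 u hu) T rfl q
      have hr : F T q ≠ 0 := ihN hgT
      have hJ := J4 hF T u huT q
      rw [hST] at hJ
      set r := F T q with hrdef
      set A := ∑ a ∈ T, ∑ b ∈ T, ((e H a b : ℝ) : ℂ) * (1 - ((e H u a : ℝ) : ℂ)) *
        (1 - ((e H u b : ℝ) : ℂ)) * F ((T.erase a).erase b) (q - 1) with hA
      have hAre : 0 ≤ (q / 2 * A / r).re := by
        rw [hA, Finset.mul_sum, Finset.sum_div, Complex.re_sum]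
        apply Finset.sum_nonneg
        intro a ha
        rw [Finset.mul_sum, Finset.sum_div, Complex.re_sum]
        apply Finset.sum_nonneg
        intro b hb
        have : q / 2 * (((e H a b : ℝ) : ℂ) * (1 - ((e H u a : ℝ) : ℂ)) *
            (1 - ((e H u b : ℝ) : ℂ)) * F ((T.erase a).erase b) (q - 1)) / r
            = ((1 / 2 * (e H a b * (1 - e H u a) * (1 - e H u b)) : ℝ) : ℂ) *
              (q * F ((T.erase a).erase b) (q - 1)) / r := by
          push_cast; ring
        rw [this]
        apply term
        · have h1 := sub_nonneg.2 (e_le_one H u a)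
          have h3 := sub_nonneg.2 (e_le_one H u b)
          have h5 := e_nonneg H a b
          positivity
        intro hk
        have hab : H a b := by
          by_contra hh
          exact hk (by rw [e_neg H hh]; ring)
        apply ihB a b hgT ha hb
        · rintro rfl
          exact hi a hab
        · intro z _ haz hbz
          exact absurd haz (ht a b z hab hbz)
      have hc : (q - (T.card : ℂ) + ∑ w ∈ T, ((e H u w : ℝ) : ℂ))
          = q + ((- (T.card : ℝ) + ∑ w ∈ T, e H u w : ℝ) : ℂ) := by
        push_cast; ring
      have hfin : F S q / r = (q + ((- (T.card : ℝ) + ∑ w ∈ T, e H u w : ℝ) : ℂ))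
          + q / 2 * A / r := by
        rw [hJ, ← hc]
        field_simp
      rw [hfin, Complex.add_re, Complex.add_re, Complex.ofReal_re]
      have h1 := hdT u
      unfold dg at h1 ⊢
      rw [hee] at h1
      linarith
    refine ⟨?_, hB, hC, hD⟩
    -- claim N
    intro hg
    rcases S.eq_empty_or_nonempty with h0 | ⟨v, hv⟩
    · rw [h0, hF.emp]
      exact one_ne_zero
    · by_cases hedge : ∃ x ∈ S, ∃ y ∈ S, H x y
      · obtain ⟨x, hx, y, hy, hxy⟩ := hedge
        have h1 := hB x y hg hx hy (fun hh => hi y (hh ▸ hxy))
          (fun z _ hxz hyz => absurd hxz (ht x y z hxy hyz))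
        intro h2
        rw [h2, zero_div, Complex.zero_re] at h1
        exact lt_irrefl _ h1
      · push Not at hedge
        obtain ⟨T, hT⟩ : ∃ T, T = S.erase v := ⟨_, rfl⟩
        have hTS : ∀ w, w ∈ T → w ∈ S := fun w hw => by
          rw [hT] at hw
          exact Finset.mem_of_mem_erase hw
        have hvT : v ∉ T := by rw [hT]; simp
        have hST : insert v T = S := by rw [hT, Finset.insert_erase hv]
        have hgT : good H T (q - 1) := by
          intro w hw
          rw [hQre, hT, dg_erase H _ v hv, e_neg H (hedge w (hTS w hw) v hv)]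
          have h1 := hg w (hTS w hw)
          linarith
        have hr := (ih T.card (by rw [hT]; exact hcard1 v hv) T rfl (q - 1)).1 hgT
        have hI := hF.ins T v hvT q
        rw [hST] at hI
        have h0 : ∑ u ∈ T, ((e H v u : ℝ) : ℂ) * F (T.erase u) (q - 1) = 0 := by
          apply Finset.sum_eq_zero
          intro u hu
          rw [e_neg H (hedge v hv u (hTS u hu))]
          simp
        rw [hI, h0, add_zero]
        have hq : q ≠ 0 := by
          intro hq0
          have h1 := hg v hv
          have h2 := dg_nonneg H S v hv (hi v)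
          rw [hq0, Complex.zero_re] at h1
          linarith
        exact mul_ne_zero hq hr

end Main

end Pool.Agent.ChromA2
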