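import Mathlib
import Pool.Agent.Lib_helper95.ChromA2.Count

set_option autoImplicit false

namespace Pool.Agent.ChromA2

open Finset Polynomial

section Poly

variable {V : Type*} [Fintype V] [DecidableEq V] (G : SimpleGraph V) [DecidableRel G.Adj]

theorem exists_poly : ∀ S : Finset V, ∃ p : ℂ[X], ∀ n : ℕ, p.eval (n : ℂ) = (N G S n : ℂ) := by
  classical
  intro S
  induction S using Finset.strongInduction with
  | H S ih =>
    rcases S.eq_empty_or_nonempty with rfl | ⟨v, hv⟩
    · exact ⟨1, fun n => by simp [N_empty]⟩
    · have hlt : ∀ I ∈ S.powerset.filter (fun I => Indep G I ∧ v ∈ I), S \ I ⊂ S := by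
        intro I hI
        rw [Finset.mem_filter] at hI
        refine Finset.ssubset_iff_subset_ne.2 ⟨Finset.sdiff_subset, fun hh => ?_⟩
        have : v ∈ S \ I := by rw [hh]; exact hv
        exact (Finset.mem_sdiff.1 this).2 hI.2.2
      choose! p hp using ih
      refine ⟨X * ∑ I ∈ S.powerset.filter (fun I => Indep G I ∧ v ∈ I),
        (p (S \ I)).comp (X - C 1), ?_⟩
      intro n
      rcases n with _ | n
      · rw [N_zero G ⟨v, hv⟩]
        simp
      · rw [N_rec G n S v hv, eval_mul, eval_X, eval_finsetSum]
        push_cast
        congr 1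
        apply Finset.sum_congr rfl
        intro I hI
        rw [eval_comp, eval_sub, eval_X, eval_C, ← hp _ (hlt I hI) n]
        congr 1
        push_cast
        ring

/-- the chromatic polynomial of `G[S]` -/
noncomputable def P (S : Finset V) : ℂ[X] := Classical.choose (exists_poly G S)

theorem P_eval (S : Finset V) (n : ℕ) : (P G S).eval (n : ℂ) = (N G S n : ℂ) :=
  Classical.choose_spec (exists_poly G S) n

theorem poly_ext {p q : ℂ[X]} (h : ∀ n : ℕ, p.eval (n : ℂ) = q.eval (n : ℂ)) : p = q := by
  apply Polynomial.eq_of_infinite_eval_eq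
  refine Set.Infinite.mono (s := Set.range (fun n : ℕ => (n : ℂ))) ?_
    (Set.infinite_range_of_injective Nat.cast_injective)
  rintro _ ⟨n, rfl⟩
  exact h n

/-- value of the chromatic polynomial of `G[S]` -/
noncomputable def f (S : Finset V) (q : ℂ) : ℂ := (P G S).eval q

theorem f_empty (q : ℂ) : f G (∅ : Finset V) q = 1 := by
  have : P G (∅ : Finset V) = 1 := by
    apply poly_ext
    intro n
    rw [P_eval, N_empty]
    simp
  rw [f, this, eval_one]

theorem f_rec (S : Finset V) (v : V) (hv : v ∈ S) (q : ℂ) :
    f G S q = q * ∑ I ∈ S.powerset.filter (fun I => Indep G I ∧ v ∈ I), f G (S \ I) (q - 1) := by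
  have : P G S = X * ∑ I ∈ S.powerset.filter (fun I => Indep G I ∧ v ∈ I),
      (P G (S \ I)).comp (X - C 1) := by
    apply poly_ext
    intro n
    rcases n with _ | n
    · rw [P_eval, N_zero G ⟨v, hv⟩]
      simp
    · rw [P_eval, N_rec G n S v hv, eval_mul, eval_X, eval_finsetSum]
      push_cast
      congr 1
      apply Finset.sum_congr rfl
      intro I hI
      rw [eval_comp, eval_sub, eval_X, eval_C, ← P_eval]
      congr 1
      push_cast
      ring
  rw [f, this, eval_mul, eval_X, eval_finsetSum]
  congr 1
  apply Finset.sum_congr rfl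
  intro I hI
  rw [eval_comp, eval_sub, eval_X, eval_C, f]

theorem card_coloring (n : ℕ) : Nat.card (G.Coloring (Fin n)) = N G univ n := by
  classical
  have e : G.Coloring (Fin n) ≃ {c : V → ℕ // c ∈ cols G univ n} :=
    { toFun := fun c => ⟨fun v => (c v).val + 1, by
        rw [mem_cols]
        refine ⟨fun v => (c v).2, fun v => by simp, fun u _ v _ huv hh => ?_⟩
        have h1 := c.valid huv
        apply h1
        apply Fin.ext
        omega⟩
      invFun := fun c => SimpleGraph.Coloring.mk (fun v => ⟨c.1 v - 1, by
        have h := (mem_cols G).1 c.2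
        have h1 := h.1 v
        have h2 : c.1 v ≠ 0 := fun hh => (h.2.1 v).1 hh (Finset.mem_univ v)
        omega⟩) (by
        intro u v huv hh
        have h := (mem_cols G).1 c.2
        have h1 : c.1 u ≠ 0 := fun hh => (h.2.1 u).1 hh (Finset.mem_univ u)
        have h2 : c.1 v ≠ 0 := fun hh => (h.2.1 v).1 hh (Finset.mem_univ v)
        have h3 := h.2.2 u (Finset.mem_univ u) v (Finset.mem_univ v) huv
        have h4 := congrArg Fin.val hh
        simp only at h4
        omega)
      left_inv := fun c => by
        ext v
        simp
        rfl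
      right_inv := fun c => by
        apply Subtype.ext
        funext v
        have h := (mem_cols G).1 c.2
        have h2 : c.1 v ≠ 0 := fun hh => (h.2.1 v).1 hh (Finset.mem_univ v)
        show c.1 v - 1 + 1 = c.1 v
        omega }
  rw [Nat.card_congr e, Nat.card_eq_fintype_card, Fintype.card_coe, N]

/-- triangle-free complement -/
def TF : Prop := ∀ a b c : V, Gᶜ.Adj a b → Gᶜ.Adj b c → ¬ Gᶜ.Adj a c

theorem f_insert (hT : TF G) (T : Finset V) (v : V) (hv : v ∉ T) (q : ℂ) :
    f G (insert v T) q = q * (f G T (q - 1) +
      ∑ u ∈ T, if Gᶜ.Adj v u then f G (T.erase u) (q - 1) else 0) := by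
  classical
  rw [f_rec G (insert v T) v (Finset.mem_insert_self v T) q]
  congr 1
  have hset : (insert v T).powerset.filter (fun I => Indep G I ∧ v ∈ I)
      = insert {v} ((T.filter (fun u => Gᶜ.Adj v u)).image (fun u => ({v, u} : Finset V))) := by
    ext I
    rw [Finset.mem_filter, Finset.mem_powerset, Finset.mem_insert, Finset.mem_image]
    constructor
    · rintro ⟨h1, h2, h3⟩
      by_cases hI : I = {v}
      · exact Or.inl hI
      · right
        have : ∃ u ∈ I, u ≠ v := by
          by_contra hh
          push Not at hh
          apply hI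
          ext w
          rw [Finset.mem_singleton]
          exact ⟨fun hw => hh w hw, fun hw => hw ▸ h3⟩
        obtain ⟨u, hu, huv⟩ := this
        have huT : u ∈ T := by
          rcases Finset.mem_insert.1 (h1 hu) with h | h
          · exact absurd h huv
          · exact h
        have hadj : Gᶜ.Adj v u := by
          rw [SimpleGraph.compl_adj]
          exact ⟨fun hh => huv hh.symm, h2 v h3 u hu⟩
        refine ⟨u, Finset.mem_filter.2 ⟨huT, hadj⟩, ?_⟩
        ext w
        rw [Finset.mem_insert, Finset.mem_singleton]
        constructor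
        · rintro (rfl | rfl)
          · exact h3
          · exact hu
        · intro hw
          by_contra hh
          push Not at hh
          have a1 : Gᶜ.Adj u w := by
            rw [SimpleGraph.compl_adj]
            exact ⟨fun h => hh.2 h.symm, h2 u hu w hw⟩
          have a2 : Gᶜ.Adj v w := by
            rw [SimpleGraph.compl_adj]
            exact ⟨fun h => hh.1 h.symm, h2 v h3 w hw⟩
          exact hT v u w hadj a1 a2
    · rintro (rfl | ⟨u, hu, rfl⟩)
      · refine ⟨?_, ?_, Finset.mem_singleton_self v⟩
        · intro w hw
          rw [Finset.mem_singleton] at hw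
          rw [hw]; exact Finset.mem_insert_self v T
        · intro a ha b hb hab
          rw [Finset.mem_singleton] at ha hb
          rw [ha, hb] at hab
          exact G.loopless.irrefl _ hab
      · rw [Finset.mem_filter] at hu
        have h4 := hu.2
        rw [SimpleGraph.compl_adj] at h4
        refine ⟨?_, ?_, Finset.mem_insert_self v _⟩
        · intro w hw
          rw [Finset.mem_insert, Finset.mem_singleton] at hw
          rcases hw with rfl | rfl
          · exact Finset.mem_insert_self _ T
          · exact Finset.mem_insert_of_mem hu.1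
        · intro a ha b hb hab
          rw [Finset.mem_insert, Finset.mem_singleton] at ha hb
          rcases ha with rfl | rfl <;> rcases hb with rfl | rfl
          · exact G.loopless.irrefl _ hab
          · exact h4.2 hab
          · exact h4.2 hab.symm
          · exact G.loopless.irrefl _ hab
  rw [hset, Finset.sum_insert, Finset.sum_image, Finset.sum_filter]
  · congr 1
    · congr 1
      ext w
      rw [Finset.mem_sdiff, Finset.mem_insert, Finset.mem_singleton]
      constructor
      · rintro ⟨h1 | h1, h2⟩
        · exact absurd h1 h2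
        · exact h1
      · intro h
        exact ⟨Or.inr h, fun hh => hv (hh ▸ h)⟩
    · apply Finset.sum_congr rfl
      intro u hu
      split_ifs with h
      · congr 1
        ext w
        rw [Finset.mem_sdiff, Finset.mem_insert, Finset.mem_insert, Finset.mem_singleton,
          Finset.mem_erase]
        constructor
        · rintro ⟨h1 | h1, h2⟩
          · exact absurd (Or.inl h1) h2
          · exact ⟨fun hh => h2 (Or.inr hh), h1⟩
        · rintro ⟨h1, h2⟩
          refine ⟨Or.inr h2, ?_⟩
          rintro (h3 | h3)
          · exact hv (h3 ▸ h2)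
          · exact h1 h3
      · rfl
  · intro u hu u' hu' hh
    rw [Finset.mem_coe, Finset.mem_filter] at hu hu'
    simp only at hh
    have h1 : u ∈ ({v, u'} : Finset V) := by rw [← hh]; simp
    rw [Finset.mem_insert, Finset.mem_singleton] at h1
    rcases h1 with h1 | h1
    · exact absurd (h1 ▸ hu.1) hv
    · exact h1
  · intro hh
    rw [Finset.mem_image] at hh
    obtain ⟨u, hu, h⟩ := hh
    rw [Finset.mem_filter] at hu
    have : u ∈ ({v} : Finset V) := by rw [← h]; simp
    rw [Finset.mem_singleton] at this
    exact hv (this ▸ hu.1)

end Poly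

end Pool.Agent.ChromA2
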